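import Pool.Agent.X48.KyFan

/-!
# MP_03f9bf_an: a Ky Fan norm inequality for partial traces of tensor expressions

`‖L(A,B)‖_(k) ≤ 2 σ₁(A) ‖R(B)‖_(k)` fails for `n = k = 15`, with the real symmetric matrices
`A = I - 2 w wᵀ`, `w = (4/5) e₁ + (3/5) e₂`, and `B = e₀ e₀ᵀ - e₁ e₁ᵀ`:
the left side is at least `7552/125 > 60` and the right side is at most `60`.
-/

set_option autoImplicit false

open Matrix Pool.Agent.X48.KyFan

namespace Pool.Agent.Results.MP_03f9bf_an.FailsAtFifteen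

/-- There are Hermitian matrices `A`, `B` of size `15` with
`‖L(A,B)‖_(15) ≥ 7552/125 > 60 ≥ 2 σ₁(A) ‖R(B)‖_(15)`; the inequality of the problem is false. -/
theorem result :
    (∃ A B : Matrix (Fin 15) (Fin 15) ℂ, A.IsHermitian ∧ B.IsHermitian ∧
      2 * sv A 0 * kyFan 15 (R B) ≤ 60 ∧ 7552 / 125 ≤ kyFan 15 (L A B)) ∧
    ¬ ∀ (n : ℕ) (A B : Matrix (Fin n) (Fin n) ℂ), A.IsHermitian → B.IsHermitian →
      ∀ k, 1 ≤ k → k ≤ n → kyFan k (L A B) ≤ 2 * sv A 0 * kyFan k (R B) := by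
  have key : 2 * sv (toC Aq) 0 * kyFan 15 (R (toC Bq)) ≤ 60 := by
    rw [R_sum]
    have := sv_A 0 (by norm_num)
    linarith
  refine ⟨⟨toC Aq, toC Bq, A_herm, B_herm, key, L_big⟩, fun h => ?_⟩
  have h1 := h 15 (toC Aq) (toC Bq) A_herm B_herm 15 (by norm_num) le_rfl
  have h2 := L_big
  norm_num at h1 h2
  linarith

end Pool.Agent.Results.MP_03f9bf_an.FailsAtFifteen
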